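import Pool.Agent.H73.PHS.Stmts

/-!
# Row MAI of the board phs: the main theorem
-/

set_option autoImplicit false

open Set Filter Topology MeasureTheory Metric

namespace Pool.PHS

theorem MAI_thm (hEXF : EXFStmt) (hRNG : RNGStmt) (hNDE : NDEStmt) (hSRJ : SRJStmt)
    (hPRP : PRPStmt) (hOPN : OPNStmt) (hHFC : HFCStmt) (hITR : ITRStmt) : MAIStmt := by
  intro n hn D E K f hole hf
  have hn1 : 1 ≤ n := by omega
  obtain ⟨F, hF, hFf⟩ := hEXF n hn D E K f hole hf.hol
  obtain ⟨hopen, hbdd, hconn, -, -, -, -⟩ := hHFC n hn1 D E K hole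
  have hmaps := hRNG n hn1 D E K f F hole hf hF hFf
  have hnd := hNDE n hn1 D E K f F hole hf hF hFf
  have hsurj := hSRJ n D f hole.open_D hole.conn_D hf
  have hprp := hPRP n hn D E K f F hole hf hF hFf hmaps hsurj
  have hne : ((D ∪ K) ∩ F '' (D ∪ K)).Nonempty := by
    obtain ⟨z, hz⟩ := hole.conn_D.nonempty
    exact ⟨F z, hmaps (Or.inl hz), ⟨z, Or.inl hz, rfl⟩⟩
  have honto := hOPN n (D ∪ K) (D ∪ K) F hopen hF hnd hconn.isPreconnected hprp hne
  have hDK : ∀ z ∈ D, z ∉ K := by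
    intro z hz hzK
    have h1 : z ∈ Dᶜ := by
      rw [hole.compl]
      exact Or.inr hzK
    exact h1 hz
  have hback : ∀ z ∈ D ∪ K, F z ∈ K → z ∈ K := by
    intro z hz hFz
    rcases hz with hz | hz
    · exfalso
      rw [hFf hz] at hFz
      exact hDK _ (hf.maps hz) hFz
    · exact hz
  obtain ⟨g, hg, hgF⟩ := hITR n (D ∪ K) K F hopen hconn hbdd hmaps hF honto hole.comp_K
    subset_union_right hole.int_K hback
  have hgf : ∀ z ∈ D, g (f z) = z := by
    intro z hz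
    rw [← hFf hz]
    exact hgF z (Or.inl hz)
  refine ⟨g, ?_, hg.mono subset_union_left, hgf, ?_⟩
  · intro w hw
    obtain ⟨z, hz, rfl⟩ := hsurj hw
    rw [hgf z hz]
    exact hz
  · intro w hw
    obtain ⟨z, hz, rfl⟩ := hsurj hw
    rw [hgf z hz]

end Pool.PHS
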